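import Pool.Agent.Helper84.OB.Stmts

/-! Sheet OB, row MD. -/

set_option autoImplicit false

universe u

open Set Pool.Agent.Helper84.BT
open scoped Matroid

namespace Pool.Agent.Helper17.OB

open Pool.Agent.Helper84.OB

theorem md_card {α : Type u} [Finite α] (P Q R : Set α) :
    (P ∩ Q ∩ R).ncard + (P ∪ Q).ncard + (P ∪ R).ncard + (Q ∪ R).ncard =
      P.ncard + Q.ncard + R.ncard + (P ∪ Q ∪ R).ncard := by
  have h1 := Set.ncard_union_add_ncard_inter (P ∪ Q) R
  have h2 := Set.ncard_union_add_ncard_inter (P ∩ R) (Q ∩ R)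
  have h3 := Set.ncard_union_add_ncard_inter P R
  have h4 := Set.ncard_union_add_ncard_inter Q R
  have e1 : (P ∪ Q) ∩ R = (P ∩ R) ∪ (Q ∩ R) := by
    ext x
    simp only [mem_inter_iff, mem_union]
    tauto
  have e2 : (P ∩ R) ∩ (Q ∩ R) = P ∩ Q ∩ R := by
    ext x
    simp only [mem_inter_iff]
    tauto
  rw [e1] at h1
  rw [e2] at h2
  omega

theorem md_rk {α : Type u} [Finite α] (M : Matroid α) {U : Set α} (hU : U ⊆ M.E) :
    rk M✶ (M.E \ U) + rk M M.E = rk M U + (M.E \ U).ncard := by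
  have h := rk_dual M (X := M.E \ U) sdiff_subset
  rw [sdiff_sdiff_right_self, inter_eq_self_of_subset_right hU] at h
  exact h

theorem st_MD (h : ST_MI.{u}) : ST_MD.{u} := by
  intro α _ M hM A B Y hA hB hY
  have a := hA.subset_ground
  have b := hB.subset_ground
  have y := hY.subset_ground
  have h1 := h α M✶ hM (M.E \ A) (M.E \ B) (M.E \ Y) ((isFlat_iff_dual_cyclic a).1 hA)
    ((isFlat_iff_dual_cyclic b).1 hB) ((isFlat_iff_dual_cyclic y).1 hY)
  have h2 := md_card (M.E \ A) (M.E \ B) (M.E \ Y)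
  have e1 : (M.E \ A) ∩ (M.E \ B) ∩ (M.E \ Y) = M.E \ (A ∪ B ∪ Y) := by
    ext x
    simp only [mem_inter_iff, mem_sdiff, mem_union]
    tauto
  have e2 : ∀ P Q : Set α, (M.E \ P) ∪ (M.E \ Q) = M.E \ (P ∩ Q) := by
    intro P Q
    ext x
    simp only [mem_inter_iff, mem_sdiff, mem_union]
    tauto
  rw [e1, e2, e2, e2, e2] at h1 h2
  have r1 := md_rk M (union_subset (union_subset a b) y)
  have r2 := md_rk M (inter_subset_left.trans a : A ∩ B ⊆ M.E)
  have r3 := md_rk M (inter_subset_left.trans a : A ∩ Y ⊆ M.E)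
  have r4 := md_rk M (inter_subset_left.trans b : B ∩ Y ⊆ M.E)
  have r5 := md_rk M a
  have r6 := md_rk M b
  have r7 := md_rk M y
  have r8 := md_rk M ((inter_subset_left.trans inter_subset_left).trans a : A ∩ B ∩ Y ⊆ M.E)
  omega

end Pool.Agent.Helper17.OB
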